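import Pool.Agent.W650.HL.Stm

/-!
# HL-COUNT: trees with at most three leaves are spiders
-/

set_option autoImplicit false

namespace Pool.Agent.W253.HL

open Pool.W650.HL

theorem dg_eq {V : Type} [Fintype V] (G : SimpleGraph V) (v : V) [Fintype (G.neighborSet v)] :
    dg G v = G.degree v := by
  classical
  unfold dg
  rw [Set.ncard_eq_toFinset_card', Set.toFinset_card, SimpleGraph.card_neighborSet_eq_degree]

theorem walk_pair {V : Type} (G : SimpleGraph V) (v w : V) (hv : ∀ x, G.Adj v x → x = w)
    (hw : ∀ x, G.Adj w x → x = v) {a b : V} (p : G.Walk a b) :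
    (a = v ∨ a = w) → (b = v ∨ b = w) := by
  induction p with
  | nil => exact fun h => h
  | cons h p ih =>
    intro ha
    apply ih
    rcases ha with rfl | rfl
    · exact Or.inr (hv _ h)
    · exact Or.inl (hw _ h)

theorem uniq_nbr {V : Type} (G : SimpleGraph V) (v w : V) (h : dg G v = 1) (hvw : G.Adj v w) :
    ∀ x, G.Adj v x → x = w := by
  obtain ⟨y, hy⟩ := Set.ncard_eq_one.mp h
  have h1 : w ∈ G.neighborSet v := hvw
  rw [hy, Set.mem_singleton_iff] at h1
  intro x hx
  have h2 : x ∈ G.neighborSet v := hx
  rw [hy, Set.mem_singleton_iff] at h2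
  rw [h1, h2]

theorem count : COUNT := by
  classical
  intro V _ G hG
  have hconn : G.Connected := hG.connected
  have : Nonempty V := hconn.nonempty
  have hsum : ∑ v, G.degree v = 2 * G.edgeFinset.card := G.sum_degrees_eq_twice_card_edges
  have hedge : G.edgeFinset.card + 1 = Fintype.card V := hG.card_edgeFinset
  have hS0 : ∑ v, ((G.degree v : ℤ) - 2) = -2 := by
    rw [Finset.sum_sub_distrib, Finset.sum_const, Finset.card_univ, nsmul_eq_mul,
      ← Nat.cast_sum, hsum, ← hedge]
    push_cast
    ring
  by_cases hn : Nontrivial V
  · have hpos : ∀ v, 1 ≤ G.degree v := by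
      intro v
      exact hconn.preconnected.degree_pos_of_nontrivial v
    set S : Finset V := Finset.univ.filter (fun v => dg G v = 1) with hSdef
    by_cases hS : 4 ≤ S.card
    · right
      refine ⟨S, hS, fun v hv => (Finset.mem_filter.mp hv).2, ?_⟩
      intro v hv w hw hvw
      have h1 := (Finset.mem_filter.mp hv).2
      have h2 := (Finset.mem_filter.mp hw).2
      have h3 := uniq_nbr G v w h1 hvw
      have h4 := uniq_nbr G w v h2 hvw.symm
      have h5 : (Finset.univ : Finset V) ⊆ {v, w} := by
        intro u _
        obtain ⟨p⟩ := hconn.preconnected v u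
        have := walk_pair G v w h3 h4 p (Or.inl rfl)
        simpa using this
      have h6 : S.card ≤ 2 := by
        calc S.card ≤ (Finset.univ : Finset V).card := Finset.card_le_card (Finset.subset_univ _)
          _ ≤ ({v, w} : Finset V).card := Finset.card_le_card h5
          _ ≤ 2 := Finset.card_le_two
      omega
    · left
      push Not at hS
      set T : Finset V := Finset.univ.filter (fun v => ¬ dg G v = 1) with hTdef
      have hT : ∑ v ∈ T, ((G.degree v : ℤ) - 2) = (S.card : ℤ) - 2 := by
        have h1 := Finset.sum_filter_add_sum_filter_not (Finset.univ : Finset V)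
          (fun v => dg G v = 1) (fun v => ((G.degree v : ℤ) - 2))
        have h2 : ∑ v ∈ S, ((G.degree v : ℤ) - 2) = -(S.card : ℤ) := by
          rw [Finset.sum_congr rfl (g := fun _ => (-1 : ℤ))]
          · simp
          · intro v hv
            have h3 := (Finset.mem_filter.mp hv).2
            rw [dg_eq] at h3
            rw [h3]; norm_num
        rw [hS0] at h1
        change ∑ v ∈ S, _ + ∑ v ∈ T, _ = _ at h1
        rw [h2] at h1
        linarith
      have hTn : ∀ v ∈ T, (0 : ℤ) ≤ (G.degree v : ℤ) - 2 := by
        intro v hv
        have h1 := (Finset.mem_filter.mp hv).2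
        rw [dg_eq] at h1
        have h2 := hpos v
        have h3 : 2 ≤ G.degree v := by omega
        have h4 : (2 : ℤ) ≤ (G.degree v : ℤ) := by exact_mod_cast h3
        linarith
      by_cases hbig : ∃ c, 3 ≤ dg G c
      · obtain ⟨c, hc⟩ := hbig
        have hcT : c ∈ T := Finset.mem_filter.mpr ⟨Finset.mem_univ _, by omega⟩
        have hc1 : ((G.degree c : ℤ) - 2) ≤ (S.card : ℤ) - 2 := by
          rw [← hT]
          exact Finset.single_le_sum (f := fun v => ((G.degree v : ℤ) - 2)) hTn hcT
        refine ⟨c, ?_, ?_⟩
        · rw [dg_eq]
          omega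
        · intro v hvc
          by_contra hv
          push Not at hv
          have hvT : v ∈ T := Finset.mem_filter.mpr ⟨Finset.mem_univ _, by omega⟩
          have h1 : ∑ x ∈ ({c, v} : Finset V), ((G.degree x : ℤ) - 2) ≤
              ∑ x ∈ T, ((G.degree x : ℤ) - 2) := by
            apply Finset.sum_le_sum_of_subset_of_nonneg
            · intro x hx
              rw [Finset.mem_insert, Finset.mem_singleton] at hx
              rcases hx with rfl | rfl
              · exact hcT
              · exact hvT
            · intro x hx _
              exact hTn x hx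
          rw [Finset.sum_pair (Ne.symm hvc), hT] at h1
          rw [dg_eq] at hc hv
          omega
      · push Not at hbig
        exact ⟨Classical.arbitrary V, by have := hbig (Classical.arbitrary V); omega,
          fun v _ => by have := hbig v; omega⟩
  · left
    rw [not_nontrivial_iff_subsingleton] at hn
    have h0 : ∀ v, dg G v = 0 := by
      intro v
      unfold dg
      have : G.neighborSet v = ∅ := by
        ext x
        simp only [SimpleGraph.mem_neighborSet, Set.mem_empty_iff_false, iff_false]
        intro h
        exact h.ne (Subsingleton.elim _ _)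
      rw [this, Set.ncard_empty]
    exact ⟨Classical.arbitrary V, by rw [h0]; omega, fun v _ => by rw [h0]; omega⟩

end Pool.Agent.W253.HL
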